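import Pool.Agent.H.MP_2b3a02_al.C

namespace Pool.Agent.Results.MP_2b3a02_al.Eight

open Pool.Agent.H.MP_2b3a02_al

theorem result : IsLeast {m : ℕ | ∀ (R : Type) [CommRing R], RDU R m} 8 ∧
    IsLeast {m : ℕ | ∀ (R : Type) [Ring R], SR1 R → RDU R m} 8 ∧
    ∀ m : ℕ, (∀ (R : Type) [Ring R], VNR R → RDU R m) → 4 ≤ m :=
  ⟨⟨fun R _ => rdu_comm R, fun m h => not_rdu m (h RR)⟩,
    ⟨fun R _ h => rdu_sr1 R h, fun m h => not_rdu m (h RR RR_sr1)⟩,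
    fun m h => not_rdu_vnr m (h (ZMod 7) (by
      change ∀ a : ZMod 7, ∃ x : ZMod 7, a * x * a = a
      decide))⟩

end Pool.Agent.Results.MP_2b3a02_al.Eight
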